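import Pool.Agent.Lib.helper3.BCOE

set_option autoImplicit false

namespace Pool.Agent.Results.MP_aa1cf3_an.Existence

open MeasureTheory Filter Topology Finset

/-- Lebesgue measure on the unit square. -/
noncomputable def sq : Measure (ℝ × ℝ) := volume.restrict (Set.Icc (0 : ℝ) 1 ×ˢ Set.Icc (0 : ℝ) 1)

theorem result : ∃ φ : ℕ → ℕ → ℝ × ℝ → ℝ,
    (∀ i k, MemLp (φ i k) 2 sq) ∧
    (∀ i k j l, ∫ z, φ i k z * φ j l z ∂sq = if (i, k) = (j, l) then 1 else 0) ∧
    (∃ M : ℝ, ∀ i k, ∀ᵐ z ∂sq, |φ i k z| ≤ M) ∧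
    (∀ f : ℝ × ℝ → ℝ, MemLp f 2 sq → (∀ i k, ∫ z, f z * φ i k z ∂sq = 0) → f =ᵐ[sq] 0) ∧
    ∀ a : ℕ → ℕ → ℝ, Summable (fun p : ℕ × ℕ => a p.1 p.2 ^ 2) → ∀ᵐ z ∂sq,
      (∃ s : ℝ, Tendsto (fun p : ℕ × ℕ => ∑ i ∈ range p.1, ∑ k ∈ range p.2, a i k * φ i k z)
        atTop (𝓝 s)) ∧
      (∀ i, ∃ s : ℝ, Tendsto (fun n => ∑ k ∈ range n, a i k * φ i k z) atTop (𝓝 s)) ∧
      (∀ k, ∃ s : ℝ, Tendsto (fun m => ∑ i ∈ range m, a i k * φ i k z) atTop (𝓝 s)) := by
  have hdiag : Tendsto (fun n : ℕ => (n, n)) atTop atTop := by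
    rw [← prod_atTop_atTop_eq]; exact tendsto_id.prodMk tendsto_id
  refine ⟨fun i k => (Lib.H3BCO.DD.φ (i, k)).1, fun i k => Lib.H3BCO.DD.V_memLp _,
    fun i k j l => Lib.H3BCO.DD.φ_on (i, k) (j, l),
    ⟨5, fun i k => Eventually.of_forall fun z => Lib.H3BCO.DD.φ_abs _ z⟩, fun f hf h => ?_,
    fun a ha => ?_⟩
  · have hf' : Integrable f Lib.H3BCO.sq := MemLp.integrable (μ := Lib.H3BCO.sq) one_le_two hf
    exact Lib.H3BCO.gen f hf' (Lib.H3BCO.DD.φ_complete _ fun p => h p.1 p.2)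
  · refine (Lib.H3BCO.DD.φ_conv a ha).and (Eventually.and ?_ ?_)
    · rw [ae_all_iff]
      intro i
      have h := Lib.H3BCO.DD.φ_conv (fun j k => if j = i then a j k else 0)
        (ha.of_nonneg_of_le (fun _ => sq_nonneg _) fun p => by
          split_ifs
          · exact le_rfl
          · simpa using sq_nonneg _)
      refine h.mono fun z ⟨s, hs⟩ => ⟨s, (hs.comp hdiag).congr' ?_⟩
      filter_upwards [eventually_gt_atTop i] with n hn
      simp only [Function.comp]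
      rw [sum_eq_single i (fun j _ hj => by simp [hj]) fun h => absurd (mem_range.2 hn) h]
      simp
    · rw [ae_all_iff]
      intro k
      have h := Lib.H3BCO.DD.φ_conv (fun j l => if l = k then a j l else 0)
        (ha.of_nonneg_of_le (fun _ => sq_nonneg _) fun p => by
          split_ifs
          · exact le_rfl
          · simpa using sq_nonneg _)
      refine h.mono fun z ⟨s, hs⟩ => ⟨s, (hs.comp hdiag).congr' ?_⟩
      filter_upwards [eventually_gt_atTop k] with n hn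
      simp only [Function.comp]
      refine sum_congr rfl fun j _ => ?_
      rw [sum_eq_single k (fun l _ hl => by simp [hl]) fun h => absurd (mem_range.2 hn) h]
      simp

end Pool.Agent.Results.MP_aa1cf3_an.Existence
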